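import Mathlib
import Pool.Agent.V11268.LucasTwoPow

set_option autoImplicit false

namespace Pool.Agent.Results.MP_b164a8_nt.EvenFibonacci

open Polynomial IntermediateField Pool.Agent.V11268.Monogenic Pool.Agent.V11268.LucasFib
  Pool.Agent.V11268.LucasTwoPow

theorem monogenic_zero : ∀ x ∈ ℚ⟮(0 : ℂ)⟯, IsIntegral ℤ x → x ∈ Algebra.adjoin ℤ {(0 : ℂ)} := by
  intro x hx hxint
  have hbot : ℚ⟮(0 : ℂ)⟯ = ⊥ := IntermediateField.adjoin_zero
  rw [hbot, IntermediateField.mem_bot] at hx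
  obtain ⟨q, rfl⟩ := hx
  have hq : IsIntegral ℤ q := (isIntegral_algebraMap_iff (algebraMap ℚ ℂ).injective).mp hxint
  obtain ⟨m, hm⟩ := IsIntegrallyClosed.isIntegral_iff.mp hq
  rw [← hm, ← IsScalarTower.algebraMap_apply]
  exact Subalgebra.algebraMap_mem _ _

theorem root_F_two_pow (a : ℕ) (θ : ℂ) (h : aeval θ (F (2 ^ (a + 1))) = 0) :
    θ = 0 ∨ ∃ j, aeval θ (L (2 ^ (j + 1))) = 0 := by
  induction a with
  | zero =>
    left
    have e : F (2 ^ (0 + 1)) = X := by
      simp only [zero_add, pow_one, F, mul_one, add_zero]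
    rw [e, aeval_X] at h
    exact h
  | succ a ih =>
    rw [pow_succ 2 (a + 1), mul_comm _ 2, F_two_mul, map_mul] at h
    rcases mul_eq_zero.mp h with h1 | h1
    · exact ih h1
    · exact Or.inr ⟨a, h1⟩

/-- The even integers `n ≥ 2` such that every monic irreducible factor of the Fibonacci polynomial
`F n` in `ℤ[X]` is monogenic are exactly the powers of two. -/
theorem result : {n : ℕ | 2 ≤ n ∧ Even n ∧ ∀ f : ℤ[X], f.Monic →
    Irreducible (f.map (Int.castRingHom ℚ)) → f ∣ F n → Monogenic f} =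
    {n : ℕ | ∃ a : ℕ, 1 ≤ a ∧ n = 2 ^ a} := by
  ext n
  simp only [Set.mem_ofPred_eq]
  constructor
  · rintro ⟨hn2, hn, hall⟩
    obtain ⟨a, m, hm, hnm⟩ := Nat.exists_eq_two_pow_mul_odd (n := n) (by omega)
    by_cases hm1 : m = 1
    · refine ⟨a, ?_, by rw [hnm, hm1, mul_one]⟩
      rcases Nat.eq_zero_or_pos a with rfl | ha
      · rw [hm1] at hnm
        omega
      · exact ha
    exfalso
    have h1 : 1 < m := by
      obtain ⟨k, hk⟩ := hm
      omega
    have hm0 : m ≠ 0 := by omega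
    have hζ := Complex.isPrimitiveRoot_exp m hm0
    set ζ := Complex.exp (2 * Real.pi * Complex.I / m) with hζdef
    have hζ0 : ζ ≠ 0 := hζ.ne_zero hm0
    obtain ⟨x, hx, hxint, hxnot⟩ := exists_not_mem hm h1 hζ
    have hζint : IsIntegral ℤ ζ := hζ.isIntegral (by omega)
    have hint : IsIntegral ℤ (ζ - ζ⁻¹) := hζint.sub ((hζ.inv).isIntegral (by omega))
    have hzn : ζ ^ n = 1 := by rw [hnm, mul_comm, pow_mul, hζ.pow_eq_one, one_pow]
    have hroot : aeval (ζ - ζ⁻¹) (F n) = 0 := by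
      have h2 := aeval_F ζ hζ0 n
      rw [hzn, hn.neg_pow, inv_pow, hzn, inv_one, sub_self] at h2
      refine (mul_eq_zero.mp h2).resolve_left ?_
      intro h3
      have h4 : ζ * ζ⁻¹ = 1 := mul_inv_cancel₀ hζ0
      have h5 : ζ ^ 2 = -1 := by linear_combination ζ * h3 - h4
      have h6 : ζ ^ 4 = 1 := by
        have : ζ ^ 4 = (ζ ^ 2) ^ 2 := by ring
        rw [this, h5]; norm_num
      have h7 : m ∣ 4 := hζ.dvd_of_pow_eq_one 4 h6
      have h8 : Nat.Coprime m 4 := by
        have : (4 : ℕ) = 2 ^ 2 := by norm_num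
        rw [this]
        exact Nat.Coprime.pow_right _ (Nat.coprime_two_right.mpr hm)
      have h9 : m = 1 := Nat.Coprime.eq_one_of_dvd h8 h7
      exact hm1 h9
    have hirr : Irreducible ((minpoly ℤ (ζ - ζ⁻¹)).map (Int.castRingHom ℚ)) := by
      have h2 := minpoly.isIntegrallyClosed_eq_field_fractions' ℚ hint
      have h3 : (Int.castRingHom ℚ) = algebraMap ℤ ℚ := rfl
      rw [h3, ← h2]
      exact minpoly.irreducible hint.tower_top
    exact hxnot (hall _ (minpoly.monic hint) hirr (minpoly.isIntegrallyClosed_dvd hint hroot)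
      (ζ - ζ⁻¹) (minpoly.aeval _ _) x hx hxint)
  · rintro ⟨a, ha, rfl⟩
    obtain ⟨b, rfl⟩ := Nat.exists_eq_add_of_le' ha
    refine ⟨?_, ?_, fun f _ _ hdvd θ hθ => ?_⟩
    · calc 2 = 2 ^ 1 := by norm_num
        _ ≤ 2 ^ (b + 1) := Nat.pow_le_pow_right (by norm_num) (by omega)
    · rw [pow_succ]; exact Nat.even_mul.mpr (Or.inr even_two)
    · have h1 := aeval_eq_zero_of_dvd_aeval_eq_zero hdvd hθ
      rcases root_F_two_pow b θ h1 with rfl | ⟨j, hj⟩
      · exact monogenic_zero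
      · exact mem_adjoin_of_root j θ hj

end Pool.Agent.Results.MP_b164a8_nt.EvenFibonacci
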